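import Pool.Agent.J4H38.GS.Stm

set_option autoImplicit false

open MeasureTheory Set Filter

namespace Pool.Agent.J4H89.GS

open Pool.Agent.J4H38.GS

lemma saw_meas (a : ℝ) : Measurable (saw a) := by
  unfold saw
  have h1 : Measurable fun y : ℝ => (⌊y - a⌋ : ℝ) := by
    have h2 : Measurable fun y : ℝ => ⌊y - a⌋ := Int.measurable_floor.comp (measurable_id.sub_const a)
    exact (measurable_from_top (f := fun n : ℤ => (n : ℝ))).comp h2
  exact (h1.sub measurable_id).add_const 1

lemma saw_abs (a : ℝ) (ha : 0 ≤ a) (ha1 : a < 1) (y : ℝ) : |saw a y| ≤ 1 := by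
  unfold saw
  have h1 := Int.floor_le (y - a)
  have h2 := Int.lt_floor_add_one (y - a)
  rw [abs_le]
  constructor <;> linarith

lemma saw_int (a : ℝ) (ha : 0 ≤ a) (ha1 : a < 1) (s : ℂ) (hs : 0 < s.re) :
    IntegrableOn (fun y : ℝ => (saw a y : ℂ) * (y : ℂ) ^ (-s - 1)) (Ioi (1 : ℝ)) := by
  have h1 : IntegrableOn (fun y : ℝ => (y : ℂ) ^ (-s - 1)) (Ioi (1 : ℝ)) :=
    integrableOn_Ioi_cpow_of_lt (by simp; linarith) one_pos
  refine Integrable.bdd_mul (c := 1) h1 ?_ ?_
  · exact (Complex.measurable_ofReal.comp (saw_meas a)).aestronglyMeasurable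
  · exact Eventually.of_forall fun y => by
      rw [Complex.norm_real, Real.norm_eq_abs]
      exact saw_abs a ha ha1 y

theorem t_DAN : S_DAN := by
  intro a ha ha1
  constructor
  · intro s hs
    rw [mem_ofPred_eq] at hs
    set g : ℝ → ℂ := indicator (Ioi 1) (fun y => (saw a y : ℂ)) with hg
    have hgm : Measurable g :=
      (Complex.measurable_ofReal.comp (saw_meas a)).indicator measurableSet_Ioi
    have hgb : ∀ y, ‖g y‖ ≤ 1 := by
      intro y
      rw [hg]
      refine (norm_indicator_le_norm_self _ _).trans ?_
      rw [Complex.norm_real, Real.norm_eq_abs]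
      exact saw_abs a ha ha1 y
    have h1 : ∀ s : ℂ, DD a s = s * mellin g (-s) := by
      intro s
      unfold DD mellin
      congr 1
      have e1 : (fun t : ℝ => (t : ℂ) ^ (-s - 1) • g t) =
          indicator (Ioi 1) (fun y : ℝ => (saw a y : ℂ) * (y : ℂ) ^ (-s - 1)) := by
        ext t
        rw [hg]
        by_cases ht : t ∈ Ioi (1 : ℝ)
        · rw [indicator_of_mem ht, indicator_of_mem ht, smul_eq_mul, mul_comm]
        · rw [indicator_of_notMem ht, indicator_of_notMem ht, smul_zero]
      rw [e1, setIntegral_indicator measurableSet_Ioi]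
      congr 2
      ext x
      simp only [mem_inter_iff, mem_Ioi]
      constructor
      · intro h; exact ⟨by linarith, h⟩
      · intro h; exact h.2
    have h2 : DifferentiableAt ℂ (mellin g) (-s) := by
      apply mellin_differentiableAt_of_isBigO_rpow (a := 0) (b := (-s).re - 1)
      · have : LocallyIntegrable g volume := by
          rw [locallyIntegrable_iff]
          intro K hK
          exact Measure.integrableOn_of_bounded (M := 1) hK.measure_lt_top.ne
            hgm.aestronglyMeasurable (Eventually.of_forall hgb)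
        exact this.locallyIntegrableOn _
      · simp only [neg_zero, Real.rpow_zero]
        exact Asymptotics.IsBigO.of_bound 1 (Eventually.of_forall fun y => by
          rw [norm_one, mul_one]; exact hgb y)
      · simp; exact hs
      · apply Asymptotics.IsBigO.of_bound 1
        have : ∀ᶠ x in nhdsWithin (0 : ℝ) (Ioi 0), x < 1 :=
          eventually_nhdsWithin_of_eventually_nhds (eventually_lt_nhds one_pos)
        filter_upwards [this] with x hx
        rw [hg, indicator_of_notMem (by simp; exact hx.le), norm_zero]
        positivity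
      · linarith
    have h3 : DifferentiableAt ℂ (fun s : ℂ => s * mellin g (-s)) s := by
      have h5 : DifferentiableAt ℂ (mellin g ∘ fun s : ℂ => -s) s :=
        DifferentiableAt.comp (g := mellin g) (f := fun s : ℂ => -s) s h2 differentiableAt_id.neg
      exact differentiableAt_id.mul h5
    have h4 : DD a = fun s : ℂ => s * mellin g (-s) := funext h1
    rw [h4]
    exact h3.differentiableWithinAt
  · intro s hs
    unfold DD
    rw [norm_mul, div_eq_mul_inv]
    apply mul_le_mul_of_nonneg_left _ (norm_nonneg _)
    have h1 : ‖∫ y in Ioi (1 : ℝ), (saw a y : ℂ) * (y : ℂ) ^ (-s - 1)‖ ≤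
        ∫ y in Ioi (1 : ℝ), y ^ (-s.re - 1) := by
      apply norm_integral_le_of_norm_le
      · exact integrableOn_Ioi_rpow_of_lt (by linarith) one_pos
      · filter_upwards [ae_restrict_mem measurableSet_Ioi] with y hy
        rw [mem_Ioi] at hy
        rw [norm_mul, Complex.norm_real, Real.norm_eq_abs,
          Complex.norm_cpow_eq_rpow_re_of_pos (by linarith)]
        have h2 : (-s - 1).re = -s.re - 1 := by simp
        rw [h2]
        exact mul_le_of_le_one_left (Real.rpow_nonneg (by linarith) _) (saw_abs a ha ha1 y)
    refine h1.trans ?_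
    rw [integral_Ioi_rpow_of_lt (by linarith) one_pos]
    have h3 : -s.re - 1 + 1 = -s.re := by ring
    rw [h3, Real.one_rpow, neg_div_neg_eq, one_div]

end Pool.Agent.J4H89.GS
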