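import Pool.Agent.J4H89.GS.DAN

set_option autoImplicit false

open MeasureTheory Set Filter

namespace Pool.Agent.J4H89.GS

open Pool.Agent.J4H38.GS

theorem t_HUR : S_HUR := by
  intro a ha ha1 s hs
  have hs0 : 0 < s.re := by linarith
  have hsne : s ≠ 0 := by intro h; rw [h] at hs0; simp at hs0
  have hsne1 : s - 1 ≠ 0 := by
    intro h
    rw [sub_eq_zero.mp h] at hs
    simp at hs
  have hlt : (-s - 1).re < -1 := by simp; linarith
  have hb : IntegrableOn (fun y : ℝ => (y : ℂ) ^ (-s - 1)) (Ioi (1 : ℝ)) :=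
    integrableOn_Ioi_cpow_of_lt hlt one_pos
  set F : ℕ → ℝ → ℂ := fun n => indicator (Ici ((n : ℝ) + 1 + a)) (fun y : ℝ => (y : ℂ) ^ (-s - 1)) with hF
  have hc : ∀ n : ℕ, (1 : ℝ) ≤ (n : ℝ) + 1 + a := fun n => by
    have : (0 : ℝ) ≤ n := n.cast_nonneg
    linarith
  have hFint : ∀ n, Integrable (F n) (volume.restrict (Ioi (1 : ℝ))) := fun n =>
    hb.indicator measurableSet_Ici
  have hset : ∀ n : ℕ, ((Ioi (1 : ℝ) ∩ Ici ((n : ℝ) + 1 + a) : Set ℝ)) =ᵐ[volume]
      (Ioi ((n : ℝ) + 1 + a) : Set ℝ) := by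
    intro n
    have h1 : ((Ioi (1 : ℝ) ∩ Ici ((n : ℝ) + 1 + a) : Set ℝ)) =ᵐ[volume]
        ((Ici (1 : ℝ) ∩ Ici ((n : ℝ) + 1 + a) : Set ℝ)) :=
      Ioi_ae_eq_Ici.inter (ae_eq_refl _)
    have h2 : (Ici (1 : ℝ) ∩ Ici ((n : ℝ) + 1 + a) : Set ℝ) = Ici ((n : ℝ) + 1 + a) := by
      apply inter_eq_right.mpr
      exact Ici_subset_Ici.mpr (hc n)
    rw [h2] at h1
    exact h1.trans Ioi_ae_eq_Ici.symm
  have hval : ∀ n, ∫ y in Ioi (1 : ℝ), F n y = (((n : ℝ) + 1 + a : ℝ) : ℂ) ^ (-s) / s := by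
    intro n
    rw [hF]
    simp only
    rw [setIntegral_indicator measurableSet_Ici, setIntegral_congr_set (hset n),
      integral_Ioi_cpow_of_lt hlt (by linarith [hc n])]
    have e1 : -s - 1 + 1 = -s := by ring
    rw [e1, neg_div_neg_eq]
  have hnorm : ∀ n, ∫ y in Ioi (1 : ℝ), ‖F n y‖ = ((n : ℝ) + 1 + a) ^ (-s.re) / s.re := by
    intro n
    have e1 : (fun y : ℝ => ‖F n y‖) = indicator (Ici ((n : ℝ) + 1 + a)) (fun y : ℝ => ‖(y : ℂ) ^ (-s - 1)‖) := by
      ext y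
      rw [hF]
      exact norm_indicator_eq_indicator_norm _ _
    rw [e1, setIntegral_indicator measurableSet_Ici, setIntegral_congr_set (hset n)]
    have e2 : ∫ y in Ioi ((n : ℝ) + 1 + a), ‖(y : ℂ) ^ (-s - 1)‖ =
        ∫ y in Ioi ((n : ℝ) + 1 + a), y ^ (-s.re - 1) := by
      apply setIntegral_congr_fun measurableSet_Ioi
      intro y hy
      rw [mem_Ioi] at hy
      simp only
      rw [Complex.norm_cpow_eq_rpow_re_of_pos (by linarith [hc n])]
      congr 1
    rw [e2, integral_Ioi_rpow_of_lt (by linarith) (by linarith [hc n])]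
    have e3 : -s.re - 1 + 1 = -s.re := by ring
    rw [e3, neg_div_neg_eq]
  have hsum : Summable fun n => ∫ y in Ioi (1 : ℝ), ‖F n y‖ := by
    simp_rw [hnorm]
    apply Summable.div_const
    have h1 := (Real.summable_one_div_nat_add_rpow (1 + a) s.re).mpr hs
    refine h1.congr ?_
    intro n
    rw [abs_of_pos (by linarith [hc n]), one_div, Real.rpow_neg (by linarith [hc n]), add_assoc]
  have H := hasSum_integral_of_summable_integral_norm hFint hsum
  simp_rw [hval] at H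
  have hts : ∀ y ∈ Ioi (1 : ℝ), ∑' n, F n y = (⌊y - a⌋ : ℂ) * (y : ℂ) ^ (-s - 1) := by
    intro y hy
    rw [mem_Ioi] at hy
    have h0 : 0 ≤ y - a := by linarith
    have h1 : ∀ n, F n y = if n < ⌊y - a⌋₊ then (y : ℂ) ^ (-s - 1) else 0 := by
      intro n
      rw [hF]
      simp only [indicator_apply, mem_Ici]
      have h2 : ((n : ℝ) + 1 + a ≤ y) ↔ n < ⌊y - a⌋₊ := by
        rw [Nat.lt_iff_add_one_le, Nat.le_floor_iff h0]
        push_cast
        constructor <;> intro h <;> linarith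
      simp only [h2]
    simp_rw [h1]
    rw [tsum_eq_sum (s := Finset.range ⌊y - a⌋₊)]
    · rw [Finset.sum_congr rfl (g := fun _ => (y : ℂ) ^ (-s - 1))]
      · rw [Finset.sum_const, Finset.card_range, nsmul_eq_mul]
        congr 1
        have h3 : ((⌊y - a⌋₊ : ℕ) : ℤ) = ⌊y - a⌋ := Int.natCast_floor_eq_floor h0
        rw [← h3]
        push_cast
        rfl
      · intro n hn
        rw [if_pos (Finset.mem_range.mp hn)]
    · intro n hn
      rw [if_neg]
      rw [Finset.mem_range] at hn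
      exact hn
  rw [setIntegral_congr_fun measurableSet_Ioi hts] at H
  have H2 := H.mul_left s
  have e1 : (fun n : ℕ => s * ((((n : ℝ) + 1 + a : ℝ) : ℂ) ^ (-s) / s)) =
      fun n : ℕ => (((n : ℝ) + 1 + a : ℝ) : ℂ) ^ (-s) := by
    ext n
    field_simp
  rw [e1] at H2
  suffices hv : DD a s + 1 / (s - 1) = s * ∫ y in Ioi (1 : ℝ), (⌊y - a⌋ : ℂ) * (y : ℂ) ^ (-s - 1) by
    rw [hv]; exact H2
  have i1 : IntegrableOn (fun y : ℝ => (y : ℂ) ^ (-s)) (Ioi (1 : ℝ)) :=
    integrableOn_Ioi_cpow_of_lt (by simp; linarith) one_pos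
  have e2 : ∫ y in Ioi (1 : ℝ), (⌊y - a⌋ : ℂ) * (y : ℂ) ^ (-s - 1) =
      ∫ y in Ioi (1 : ℝ), ((saw a y : ℂ) * (y : ℂ) ^ (-s - 1) + ((y : ℂ) ^ (-s) - (y : ℂ) ^ (-s - 1))) := by
    apply setIntegral_congr_fun measurableSet_Ioi
    intro y hy
    rw [mem_Ioi] at hy
    have hy0 : (y : ℂ) ≠ 0 := by
      have : y ≠ 0 := by linarith
      exact_mod_cast this
    simp only
    have e3 : (y : ℂ) ^ (-s) = (y : ℂ) ^ (-s - 1) * y := by
      have := Complex.cpow_add (-s - 1) 1 hy0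
      rw [Complex.cpow_one] at this
      rw [← this]
      congr 1
      ring
    rw [e3]
    unfold saw
    push_cast
    ring
  have i2 : IntegrableOn (fun y : ℝ => (y : ℂ) ^ (-s) - (y : ℂ) ^ (-s - 1)) (Ioi (1 : ℝ)) := i1.sub hb
  rw [e2, integral_add (saw_int a ha ha1 s hs0) i2, integral_sub i1 hb,
    integral_Ioi_cpow_of_lt (by simp; linarith) one_pos, integral_Ioi_cpow_of_lt hlt one_pos, mul_add]
  unfold DD
  congr 1
  have e4 : -s - 1 + 1 = -s := by ring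
  have e5 : -s + 1 = -(s - 1) := by ring
  rw [e4, e5]
  simp only [Complex.ofReal_one, Complex.one_cpow]
  field_simp
  ring

end Pool.Agent.J4H89.GS
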