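import Pool.Agent.J4H38.GS.Stm

set_option autoImplicit false

open MeasureTheory Set Filter Polynomial

namespace Pool.Agent.J4H89.GS

open Pool.Agent.J4H38.GS

noncomputable section

/-- the iterated slopes at `1` -/
def ff (h : ℂ → ℂ) : ℕ → ℂ → ℂ
  | 0 => h
  | (j + 1) => dslope (ff h j) 1

lemma ff_diff (h : ℂ → ℂ) (hh : DifferentiableOn ℂ h {s : ℂ | 0 < s.re}) (j : ℕ) :
    DifferentiableOn ℂ (ff h j) {s : ℂ | 0 < s.re} := by
  induction j with
  | zero => exact hh
  | succ j ih =>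
    have ho : IsOpen {s : ℂ | 0 < s.re} := isOpen_lt continuous_const Complex.continuous_re
    have h1 : {s : ℂ | 0 < s.re} ∈ nhds (1 : ℂ) := ho.mem_nhds (by simp)
    exact (Complex.differentiableOn_dslope h1).mpr ih

lemma ff_expand (h : ℂ → ℂ) (k : ℕ) (s : ℂ) :
    h s = ∑ j ∈ Finset.range k, ff h j 1 * (s - 1) ^ j + (s - 1) ^ k * ff h k s := by
  induction k with
  | zero => simp [ff]
  | succ k ih =>
    have h1 : (s - 1) • dslope (ff h k) 1 s = ff h k s - ff h k 1 := sub_smul_dslope _ _ _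
    rw [smul_eq_mul] at h1
    have h2 : ff h (k + 1) s = dslope (ff h k) 1 s := rfl
    rw [Finset.sum_range_succ, h2, pow_succ, mul_assoc, h1, ih]
    ring

/-- the polynomial -/
def PPp (h : ℂ → ℂ) (k : ℕ) : ℂ[X] :=
  ∑ i ∈ Finset.range k, Polynomial.C (ff h (k - 1 - i) 1 / (i.factorial : ℂ)) * X ^ i

lemma PPp_coeff (h : ℂ → ℂ) (k i : ℕ) (hi : i < k) :
    (PPp h k).coeff i = ff h (k - 1 - i) 1 / (i.factorial : ℂ) := by
  unfold PPp
  rw [Polynomial.finsetSum_coeff]
  simp only [Polynomial.coeff_C_mul, Polynomial.coeff_X_pow]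
  rw [Finset.sum_eq_single i]
  · simp
  · intro b _ hb
    simp [Ne.symm hb]
  · intro h1
    exact absurd (Finset.mem_range.mpr hi) h1

lemma PPp_degree (h : ℂ → ℂ) (k : ℕ) (hk : 1 ≤ k) : (PPp h k).degree < (k : WithBot ℕ) := by
  unfold PPp
  refine lt_of_le_of_lt (Polynomial.degree_sum_le _ _) ?_
  rw [Finset.sup_lt_iff]
  · intro i hi
    refine lt_of_le_of_lt (Polynomial.degree_C_mul_X_pow_le _ _) ?_
    exact_mod_cast Finset.mem_range.mp hi
  · exact WithBot.bot_lt_coe k

lemma RR_PPp (h : ℂ → ℂ) (k : ℕ) (hk : 1 ≤ k) (s : ℂ) :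
    RR (PPp h k) s = ∑ j ∈ Finset.range k, ff h j 1 / (s - 1) ^ (k - j) := by
  have h1 : RR (PPp h k) s = ∑ i ∈ Finset.range k,
      (PPp h k).coeff i * ((i.factorial : ℂ) / (s - 1) ^ (i + 1)) := by
    unfold RR
    apply Polynomial.sum_over_range'
    · intro n; simp
    · rcases eq_or_ne (PPp h k) 0 with h0 | h0
      · rw [h0]; simp; omega
      · rw [Polynomial.natDegree_lt_iff_degree_lt h0]
        exact PPp_degree h k hk
  rw [h1, ← Finset.sum_range_reflect]
  apply Finset.sum_congr rfl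
  intro j hj
  have hj' := Finset.mem_range.mp hj
  rw [PPp_coeff h k _ (by omega)]
  have e1 : k - 1 - (k - 1 - j) = j := by omega
  have e2 : k - 1 - j + 1 = k - j := by omega
  rw [e1, e2]
  have h2 : (((k - 1 - j).factorial : ℕ) : ℂ) ≠ 0 := by
    exact_mod_cast Nat.factorial_ne_zero _
  field_simp

theorem t_PP : S_PP := by
  intro k Dv hk hD hb
  set h : ℂ → ℂ := fun s => (∏ i, (1 + (s - 1) * Dv i s)) / s with hdef
  have hh : DifferentiableOn ℂ h {s : ℂ | 0 < s.re} := by
    apply DifferentiableOn.div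
    · apply DifferentiableOn.fun_finsetProd
      intro i _
      exact (differentiableOn_const _).add
        (((differentiableOn_id).sub (differentiableOn_const _)).mul (hD i))
    · exact differentiableOn_id
    · intro s hs h0
      rw [mem_ofPred_eq, h0] at hs
      simp at hs
  have hG := ff_diff h hh k
  have key : ∀ s : ℂ, s ≠ 1 → ff h k s =
      h s / (s - 1) ^ k - ∑ j ∈ Finset.range k, ff h j 1 / (s - 1) ^ (k - j) := by
    intro s hs
    have hs1 : s - 1 ≠ 0 := sub_ne_zero.mpr hs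
    have h1 := ff_expand h k s
    have h2 : ∑ j ∈ Finset.range k, ff h j 1 / (s - 1) ^ (k - j) =
        (∑ j ∈ Finset.range k, ff h j 1 * (s - 1) ^ j) / (s - 1) ^ k := by
      rw [Finset.sum_div]
      apply Finset.sum_congr rfl
      intro j hj
      have hj' := Finset.mem_range.mp hj
      have h3 : (s - 1) ^ k = (s - 1) ^ (k - j) * (s - 1) ^ j := by
        rw [← pow_add]; congr 1; omega
      rw [h3]
      field_simp
    rw [h2, ← sub_div, eq_div_iff (pow_ne_zero _ hs1)]
    linear_combination -h1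
  refine ⟨PPp h k, ff h k, PPp_degree h k hk, hG, ?_, ?_⟩
  · intro s hs hs1
    have hs1' : s - 1 ≠ 0 := sub_ne_zero.mpr hs1
    have h0 : s ≠ 0 := by
      intro h0; rw [h0] at hs; simp at hs
    rw [RR_PPp h k hk, key s hs1, sub_add_cancel]
    have h3 : (∏ i, (Dv i s + 1 / (s - 1))) = (∏ i, (1 + (s - 1) * Dv i s)) / (s - 1) ^ k := by
      rw [eq_div_iff (pow_ne_zero _ hs1')]
      have h4 : (s - 1) ^ k = ∏ _i : Fin k, (s - 1) := by simp
      rw [h4, ← Finset.prod_mul_distrib]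
      apply Finset.prod_congr rfl
      intro i _
      field_simp
      ring
    rw [h3, hdef]
    simp only
    rw [div_right_comm]
  · intro δ hδ
    have hc : IsCompact (Metric.closedBall (1 : ℂ) (1 / 2)) := isCompact_closedBall _ _
    have hsub : Metric.closedBall (1 : ℂ) (1 / 2) ⊆ {s : ℂ | 0 < s.re} := by
      intro s hs
      rw [Metric.mem_closedBall, Complex.dist_eq] at hs
      have h1 := Complex.abs_re_le_norm (s - 1)
      rw [Complex.sub_re, Complex.one_re] at h1
      have h2 := (abs_le.mp (h1.trans hs)).1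
      show 0 < s.re
      linarith
    obtain ⟨M, hM⟩ := hc.exists_bound_of_continuousOn ((hG.mono hsub).continuousOn)
    have hM0 : 0 ≤ M := (norm_nonneg _).trans (hM 1 (by simp))
    set S : ℝ := ∑ j ∈ Finset.range k, ‖ff h j 1‖ with hS
    have hS0 : 0 ≤ S := Finset.sum_nonneg fun j _ => norm_nonneg _
    refine ⟨M + 2 ^ k * ((1 + 12 / δ) ^ k / δ) + 2 ^ k * S, 2 * k, by positivity, ?_⟩
    intro s hs1 hs2
    have hre : 0 < s.re := lt_of_lt_of_le hδ hs1
    have hT : 1 ≤ 1 + |s.im| := by linarith [abs_nonneg s.im]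
    have hTk : 1 ≤ (1 + |s.im|) ^ (2 * k) := one_le_pow₀ hT
    by_cases hball : ‖s - 1‖ ≤ 1 / 2
    · have h1 : s ∈ Metric.closedBall (1 : ℂ) (1 / 2) := by
        rw [Metric.mem_closedBall, Complex.dist_eq]; exact hball
      calc ‖ff h k s‖ ≤ M := hM s h1
        _ ≤ M * (1 + |s.im|) ^ (2 * k) := le_mul_of_one_le_right hM0 hTk
        _ ≤ _ := by
          apply mul_le_mul_of_nonneg_right _ (by positivity)
          have : 0 ≤ 2 ^ k * ((1 + 12 / δ) ^ k / δ) := by positivity
          have : 0 ≤ 2 ^ k * S := by positivity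
          linarith
    · push Not at hball
      have hne : s ≠ 1 := by
        intro h1; rw [h1] at hball; simp at hball; linarith
      have hinv : ∀ j : ℕ, j ≤ k → ‖1 / (s - 1) ^ j‖ ≤ 2 ^ k := by
        intro j hj
        rw [norm_div, norm_one, norm_pow]
        have h1 : (1 / 2 : ℝ) ^ j ≤ ‖s - 1‖ ^ j := pow_le_pow_left₀ (by norm_num) hball.le j
        calc 1 / ‖s - 1‖ ^ j ≤ 1 / (1 / 2 : ℝ) ^ j := by
              apply one_div_le_one_div_of_le (by positivity) h1
          _ = 2 ^ j := by rw [one_div, ← inv_pow]; norm_num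
          _ ≤ 2 ^ k := pow_le_pow_right₀ (by norm_num) hj
      have hsn : ‖s‖ ≤ 3 * (1 + |s.im|) := by
        have h1 := Complex.norm_le_abs_re_add_abs_im s
        rw [abs_of_pos hre] at h1
        linarith [abs_nonneg s.im]
      have hsn1 : ‖s - 1‖ ≤ 4 * (1 + |s.im|) := by
        have h1 := norm_sub_le s 1
        rw [norm_one] at h1
        linarith
      have hslow : δ ≤ ‖s‖ := hs1.trans ((le_abs_self _).trans (Complex.abs_re_le_norm s))
      have hDi : ∀ i, ‖Dv i s‖ ≤ 3 * (1 + |s.im|) / δ := by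
        intro i
        refine (hb i s hre).trans ?_
        apply div_le_div₀ (by positivity) hsn hδ hs1
      have hfac : ∀ i, ‖1 + (s - 1) * Dv i s‖ ≤ (1 + 12 / δ) * (1 + |s.im|) ^ 2 := by
        intro i
        have h1 : ‖1 + (s - 1) * Dv i s‖ ≤ 1 + ‖s - 1‖ * ‖Dv i s‖ := by
          refine (norm_add_le _ _).trans ?_
          rw [norm_one, norm_mul]
        have h2 : ‖s - 1‖ * ‖Dv i s‖ ≤ 4 * (1 + |s.im|) * (3 * (1 + |s.im|) / δ) :=
          mul_le_mul hsn1 (hDi i) (norm_nonneg _) (by positivity)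
        have h3 : 4 * (1 + |s.im|) * (3 * (1 + |s.im|) / δ) = 12 / δ * (1 + |s.im|) ^ 2 := by
          field_simp
          ring
        have h4 : 1 ≤ (1 + |s.im|) ^ 2 := one_le_pow₀ hT
        rw [h3] at h2
        calc _ ≤ 1 + 12 / δ * (1 + |s.im|) ^ 2 := by linarith
          _ ≤ (1 + |s.im|) ^ 2 + 12 / δ * (1 + |s.im|) ^ 2 := by linarith
          _ = _ := by ring
      have hhs : ‖h s‖ ≤ (1 + 12 / δ) ^ k / δ * (1 + |s.im|) ^ (2 * k) := by
        rw [hdef]
        simp only
        rw [norm_div, norm_prod]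
        have h1 : ∏ i, ‖1 + (s - 1) * Dv i s‖ ≤ ((1 + 12 / δ) * (1 + |s.im|) ^ 2) ^ k := by
          calc ∏ i, ‖1 + (s - 1) * Dv i s‖
              ≤ ∏ _i : Fin k, ((1 + 12 / δ) * (1 + |s.im|) ^ 2) :=
                Finset.prod_le_prod (fun i _ => norm_nonneg _) (fun i _ => hfac i)
            _ = _ := by simp
        calc (∏ i, ‖1 + (s - 1) * Dv i s‖) / ‖s‖
            ≤ ((1 + 12 / δ) * (1 + |s.im|) ^ 2) ^ k / δ :=
              div_le_div₀ (by positivity) h1 hδ hslow
          _ = _ := by rw [mul_pow, ← pow_mul]; ring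
      rw [key s hne]
      have t1 : ‖h s / (s - 1) ^ k‖ ≤ 2 ^ k * ((1 + 12 / δ) ^ k / δ) * (1 + |s.im|) ^ (2 * k) := by
        rw [div_eq_mul_one_div, norm_mul]
        calc ‖h s‖ * ‖1 / (s - 1) ^ k‖
            ≤ ((1 + 12 / δ) ^ k / δ * (1 + |s.im|) ^ (2 * k)) * 2 ^ k :=
              mul_le_mul hhs (hinv k le_rfl) (norm_nonneg _) (by positivity)
          _ = _ := by ring
      have t2 : ‖∑ j ∈ Finset.range k, ff h j 1 / (s - 1) ^ (k - j)‖ ≤ 2 ^ k * S := by
        refine (norm_sum_le _ _).trans ?_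
        rw [hS, Finset.mul_sum]
        apply Finset.sum_le_sum
        intro j _
        rw [div_eq_mul_one_div, norm_mul, mul_comm]
        exact mul_le_mul_of_nonneg_right (hinv (k - j) (by omega)) (norm_nonneg _)
      refine (norm_sub_le _ _).trans ?_
      have t3 : 2 ^ k * S ≤ 2 ^ k * S * (1 + |s.im|) ^ (2 * k) :=
        le_mul_of_one_le_right (by positivity) hTk
      have t4 : 0 ≤ M * (1 + |s.im|) ^ (2 * k) := by positivity
      calc _ ≤ 2 ^ k * ((1 + 12 / δ) ^ k / δ) * (1 + |s.im|) ^ (2 * k) +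
            2 ^ k * S * (1 + |s.im|) ^ (2 * k) := by linarith
        _ ≤ _ := by nlinarith

end

end Pool.Agent.J4H89.GS
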